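import Pool.Agent.H7.Mu2

set_option autoImplicit false

namespace Pool.Agent.Results.MP_e83d06_co.Counter

open Finset

open Classical in
/-- The subtrees of `G`: all subgraphs (not necessarily induced) that are trees. -/
noncomputable def subtrees {V : Type} [Fintype V] (G : SimpleGraph V) : Finset G.Subgraph :=
  Finset.univ.filter (fun H : G.Subgraph => H.coe.IsTree)

/-- The mean subtree order `μ(G)`. -/
noncomputable def mu {V : Type} [Fintype V] (G : SimpleGraph V) : ℚ :=
  (∑ H ∈ subtrees G, (H.verts.ncard : ℚ)) / ((subtrees G).card : ℚ)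

/-- The contraction `G / uv`: the vertices other than `v` are listed by `v.succAbove`, and `u`
plays the merged vertex (it is adjacent to every other vertex adjacent to `u` or to `v`). -/
def contract {n : ℕ} (G : SimpleGraph (Fin (n + 1))) (u v : Fin (n + 1)) : SimpleGraph (Fin n) where
  Adj x y := x ≠ y ∧ (G.Adj (v.succAbove x) (v.succAbove y) ∨
    (v.succAbove x = u ∧ G.Adj v (v.succAbove y)) ∨ (v.succAbove y = u ∧ G.Adj v (v.succAbove x)))
  symm := ⟨fun _ _ h => ⟨h.1.symm, h.2.elim (fun a => Or.inl a.symm)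
    (fun a => a.elim (fun b => Or.inr (Or.inr b)) (fun b => Or.inr (Or.inl b)))⟩⟩
  loopless := ⟨fun _ h => h.1 rfl⟩

theorem result :
    ∃ (n : ℕ) (G : SimpleGraph (Fin (n + 1))) (u v : Fin (n + 1)),
      G.Connected ∧ G.Adj u v ∧ mu G < mu (contract G u v) := by
  refine ⟨206, Pool.Agent.H7.Mu2.G, 23, Fin.last 206, Pool.Agent.H7.Mu2.G_conn,
    ⟨206, by norm_num, Or.inl ⟨rfl, rfl⟩⟩, ?_⟩
  have hH : ∀ a b : Fin 206, (contract Pool.Agent.H7.Mu2.G 23 (Fin.last 206)).Adj a b ↔
      Pool.Agent.H7.Mu2.G.Adj a.castSucc b.castSucc := by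
    intro a b
    simp only [contract, Fin.succAbove_last]
    constructor
    · rintro ⟨h1, h2 | h2 | h2⟩
      · exact h2
      · exact absurd (Fin.castSucc_injective _
          (h2.1.trans (Pool.Agent.H7.Mu2.leaf _ h2.2).symm)) h1
      · exact absurd (Fin.castSucc_injective _
          ((Pool.Agent.H7.Mu2.leaf _ h2.2).trans h2.1.symm)) h1
    · intro h
      exact ⟨fun e => h.ne (by rw [e]), Or.inl h⟩
  have t1 := @Pool.Agent.H7.Mu2.trees_val 26 _ _ (by norm_num) Pool.Agent.H7.Mu2.G
    Pool.Agent.H7.Mu2.lst Pool.Agent.H7.Mu2.run1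
  have t0 := @Pool.Agent.H7.Mu2.trees_val 25 _ _ (by norm_num) _
    (Pool.Agent.H7.Mu2.lst0 _ hH) Pool.Agent.H7.Mu2.run0
  have h1 : (subtrees Pool.Agent.H7.Mu2.G).card = 340067166737 := by
    rw [card_eq_sum_ones]; unfold subtrees; exact (@t1 (_)).1
  have h2 : ∑ H ∈ subtrees Pool.Agent.H7.Mu2.G, H.verts.ncard = 51724804118172 := by
    unfold subtrees; exact (@t1 (_)).2
  have h3 : (subtrees (contract Pool.Agent.H7.Mu2.G 23 (Fin.last 206))).card = 174483974143 := by
    rw [card_eq_sum_ones]; unfold subtrees; exact (@t0 (_)).1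
  have h4 : ∑ H ∈ subtrees (contract Pool.Agent.H7.Mu2.G 23 (Fin.last 206)), H.verts.ncard =
      26539531216131 := by
    unfold subtrees; exact (@t0 (_)).2
  unfold mu
  rw [← Nat.cast_sum, ← Nat.cast_sum, h1, h2, h3, h4]
  norm_num

end Pool.Agent.Results.MP_e83d06_co.Counter
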